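import Pool.Agent.Q83.Beu.Fin

/-! Every value in `[0, M_{p,q}]` is the upper `s`-Beurling density of a spectrum of `μ_{p,q}`. -/

set_option autoImplicit false

open MeasureTheory
open Pool.Agent.Q83.Tree Pool.Agent.Q83.Beu

namespace Pool.Agent.Results.MP_5269d5_an.AllDensities

/-- For integers `q ≥ 2`, `q ∣ p`, `p > q`, the self-similar measure `μ = μ_{p,q}` has, for every
`0 ≤ d ≤ (2(p-1)/(q-1))^s` with `s = log q / log p`, a spectrum of upper `s`-Beurling density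
`d`. -/
theorem result (p q : ℕ) (hq : 2 ≤ q) (hd : q ∣ p) (hlt : q < p) (μ : Measure ℝ)
    [IsProbabilityMeasure μ] (hμ : SelfSim p q μ) (d : ℝ) (hd0 : 0 ≤ d)
    (hd1 : d ≤ (2 * ((p : ℝ) - 1) / ((q : ℝ) - 1)) ^ (Real.log q / Real.log p)) :
    ∃ Λ : Set ℝ, IsSpectrum μ Λ ∧
      upperBeurling (Real.log q / Real.log p) Λ = ENNReal.ofReal d :=
  main ⟨hq, hd, hlt⟩ hμ d hd0 hd1

end Pool.Agent.Results.MP_5269d5_an.AllDensities
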